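import Pool.Agent.VINO.TTail

/-!
# MP_823c05_an: systems whose tail factor is generated by affine endomorphisms of tori

Let `0 < c < 1/2` and `G x = x ^ (log x) ^ c = exp ((log x) ^ (1 + c))`. Let `(X, μ, T)` be a probability
preserving system, `𝒜` a sub-`σ`-algebra with `T⁻¹ 𝒜 ⊆ 𝒜` which generates (`GenA`), and suppose that the
bounded functions which are measurable with respect to the tail `⋂ T^(-n) 𝒜` are limits in `L²` of bounded
functions measurable with respect to factors `ℱ 0 ⊆ ℱ 1 ⊆ …` which are affine endomorphisms `x ↦ A x + b`,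
`det A ≠ 0`, of finite dimensional tori (`TorusFactor`). Then for every bounded measurable `f`, for `μ`-almost
every `x`, the sequence `f (T ^ ⌊G n⌋ x)`, `n ≥ 1`, has a unique Furstenberg system, and this is a product
measure. (Neither `T` nor its torus factors need be ergodic.)
-/

set_option autoImplicit false

namespace Pool.Agent.Results.MP_823c05_an.AffineTorusTail

open MeasureTheory Pool.Agent.VINO

theorem result {c : ℝ} (hc0 : 0 < c) (hc1 : c < 1 / 2) {X : Type*} {𝒜 : MeasurableSpace X}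
    (ℱ : ℕ → MeasurableSpace X) [m : MeasurableSpace X] {μ : Measure X}
    [IsProbabilityMeasure μ] {T : X → X} (hT : MeasurePreserving T μ μ) (h𝒜 : 𝒜 ≤ m)
    (hA : 𝒜.comap T ≤ 𝒜) (hgen : GenA T 𝒜 μ) (hmono : Monotone ℱ)
    (htor : ∀ i, TorusFactor T (ℱ i) μ)
    (hP : ∀ f : X → ℂ, TypP T 𝒜 f → ∀ ε : ℝ, 0 < ε →
      ∃ i, ∃ h : X → ℂ, Bdd h ∧ Measurable[ℱ i] h ∧ ∫ x, ‖f x - h x‖ ^ 2 ∂μ ≤ ε)
    (f : X → ℂ) (hf : Bdd f) :
    ∀ᵐ x ∂μ, HasBernoulliFS fun n => f (T^[a c n] x) :=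
  torus_tail hc0 hc1 ℱ hT h𝒜 hA hgen hmono htor hP f hf

end Pool.Agent.Results.MP_823c05_an.AffineTorusTail
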