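import Pool.Agent.VINO.QTail

/-!
# MP_823c05_an: systems whose tail factor has multiple mixing at a logarithmic rate

Let `0 < c < 1/2` and `G x = x ^ (log x) ^ c = exp ((log x) ^ (1 + c))`. Let `(X, μ, T)` be a probability
preserving system, `𝒜` a sub-`σ`-algebra with `T⁻¹ 𝒜 ⊆ 𝒜` which generates (`GenA`), and `V` a set of bounded
measurable functions, closed under conjugation, whose linear span approximates in `L²` all bounded functions
which are measurable with respect to the tail `⋂ T^(-n) 𝒜`, such that for each `m` and all `f_1, …, f_m ∈ V` the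
correlations `∫ ∏ f_i (T^(t_i) x) dμ` differ from `∏ ∫ f_i dμ` by at most `C / log g` if the gaps of
`t_1 < … < t_m` are at least `g ≥ 2` (`C` depends on the `f_i`). Then for every bounded measurable `f`, for
`μ`-almost every `x`, the sequence `f (T ^ ⌊G n⌋ x)`, `n ≥ 1`, has a unique Furstenberg system, and this is a
product measure.
-/

set_option autoImplicit false

namespace Pool.Agent.Results.MP_823c05_an.LogMixingTail

open MeasureTheory Pool.Agent.VINO

theorem result {c : ℝ} (hc0 : 0 < c) (hc1 : c < 1 / 2) {X : Type*} {𝒜 : MeasurableSpace X}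
    [m : MeasurableSpace X] {μ : Measure X} [IsProbabilityMeasure μ] {T : X → X}
    (hT : MeasurePreserving T μ μ) (h𝒜 : 𝒜 ≤ m) (hA : 𝒜.comap T ≤ 𝒜) (hgen : GenA T 𝒜 μ)
    (V : Set (X → ℂ)) (hV : ∀ f ∈ V, Bdd f)
    (hconj : ∀ f ∈ V, (fun x => (starRingEnd ℂ) (f x)) ∈ V) (hmix : LogMix μ T V)
    (hd : ∀ f : X → ℂ, TypP T 𝒜 f → ∀ ε : ℝ, 0 < ε →
      ∃ h ∈ Submodule.span ℂ V, ∫ x, ‖f x - h x‖ ^ 2 ∂μ ≤ ε)
    (f : X → ℂ) (hf : Bdd f) : ∀ᵐ x ∂μ, HasBernoulliFS fun n => f (T^[a c n] x) :=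
  logmix_tail hc0 hc1 hT h𝒜 hA hgen V hV hconj hmix hd f hf

end Pool.Agent.Results.MP_823c05_an.LogMixingTail
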