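import Pool.Agent.PJN.ExtC

/-!
# MP_823c05_an: systems whose tail factor has only trivial pairwise independent self-joinings

`T^(-1) 𝒜 ⊆ 𝒜`, `𝒜` generating, and the tail `⋂ T^(-n) 𝒜` lies in a factor which is ergodic with the PID
property (pairwise independent self-joinings are independent). For every bounded measurable function
`f` the empirical measures of the sequences `f (T^(a n) x)`, `a n = ⌊n ^ (log n) ^ c⌋`, converge in
probability to a product measure; so at almost every point this Bernoulli system is a Furstenberg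
system.
-/

set_option autoImplicit false

namespace Pool.Agent.Results.MP_823c05_an.PairwiseIndependentTail

open MeasureTheory Filter Topology Pool.Agent.VINO Pool.Agent.PJN

/-- The tail of `𝒜` lies, modulo null sets, in the `σ`-algebra generated by a factor map to an ergodic
system on a standard Borel space which has the PID property. -/
def PIDTail {X : Type*} (T : X → X) (𝒜 : MeasurableSpace X) [MeasurableSpace X] (μ : Measure X) :
    Prop :=
  ∃ (Y : Type) (_ : MeasurableSpace Y) (_ : StandardBorelSpace Y) (ν : Measure Y)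
    (_ : IsProbabilityMeasure ν) (S : Y → Y) (π : X → Y),
    Ergodic S ν ∧ PID ν S ∧ MeasurePreserving π μ ν ∧ (∀ᵐ x ∂μ, π (T x) = S (π x)) ∧
      ∀ A : Set X, MeasurableSet[tailA T 𝒜] A → ∃ B : Set Y, MeasurableSet B ∧ π ⁻¹' B =ᵐ[μ] A

/-- The averages over `n ≤ N` of the Dirac masses at the points `S^n ω` (`(S ω) i = ω (i + 1)`) tend
weak-* to `ρ^ℤ` along the sequence of values `N = M 0, M 1, M 2, …`. -/
def LimAlong {R : ℝ} (M : ℕ → ℕ) (ω : ℤ → Metric.closedBall (0 : ℂ) R)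
    (ρ : Measure (Metric.closedBall (0 : ℂ) R)) : Prop :=
  ∀ F : (ℤ → Metric.closedBall (0 : ℂ) R) → ℂ, Continuous F →
    Tendsto (fun k => av (M k) fun n => F fun i => ω (i + n)) atTop
      (𝓝 (∫ w, F w ∂(Measure.infinitePi fun _ : ℤ => ρ)))

/-- Every strictly increasing `M` has a subsequence `M ∘ κ` such that for almost every `x` the averages
of the Dirac masses at `S^n ω_x`, `n ≤ N`, tend to `ρ^ℤ` along `N = M (κ k)`; here
`ω_x n = f (T^(a n) x)` for `n ≥ 1`, `ω_x n = 0` for `n ≤ 0`, and `ρ` is the law of `f`. -/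
theorem result {c : ℝ} (hc0 : 0 < c) (hc1 : c < 1 / 2) {X : Type*} {𝒜 : MeasurableSpace X}
    [m : MeasurableSpace X] {μ : Measure X} [IsProbabilityMeasure μ] {T : X → X}
    (hT : MeasurePreserving T μ μ) (h𝒜 : 𝒜 ≤ m) (hA : 𝒜.comap T ≤ 𝒜) (hgen : GenA T 𝒜 μ)
    (htail : PIDTail T 𝒜 μ) {R : ℝ} (f : X → ℂ) (hf : Measurable f) (hR : ∀ x, ‖f x‖ ≤ R)
    (M : ℕ → ℕ) (hM : StrictMono M) :
    ∃ κ : ℕ → ℕ, StrictMono κ ∧ ∀ᵐ x ∂μ, ∀ ω : ℤ → Metric.closedBall (0 : ℂ) R,
      (∀ n : ℕ, 1 ≤ n → (ω n : ℂ) = f (T^[a c n] x)) → (∀ n : ℤ, n ≤ 0 → (ω n : ℂ) = 0) →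
        LimAlong (M ∘ κ) ω (μ.map fun x => ⟨f x, mem_closedBall_zero_iff.2 (hR x)⟩) := by
  obtain ⟨Y, _, _, ν, _, S, π, hS, hpid, hπ, hc, ht⟩ := htail
  obtain ⟨κ, hκ, h⟩ := main_ext hc0 hc1 hT h𝒜 hA hgen hS hpid hπ hc ht
    (fun x => (⟨f x, mem_closedBall_zero_iff.2 (hR x)⟩ : Metric.closedBall (0 : ℂ) R))
    (hf.subtype_mk) M hM
  refine ⟨κ, hκ, ?_⟩
  filter_upwards [h] with x hx ω hω _ F hF
  exact hx ω (fun n hn => Subtype.ext (hω n hn)) F hF

end Pool.Agent.Results.MP_823c05_an.PairwiseIndependentTail
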