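import Pool.Agent.VINO.KFin

/-!
# MP_823c05_an: systems whose tail factor is a pro-nilsystem, all bounded measurable functions

Let `0 < c < 1/2` and `G x = x ^ (log x) ^ c = exp ((log x) ^ (1 + c))`. Let `(X, μ, T)` be a probability
preserving system, `𝒜` a sub-`σ`-algebra with `T⁻¹ 𝒜 ⊆ 𝒜` which generates (`GenA`: `𝒜` is everything modulo null sets,
or `T` is invertible and the `T^n 𝒜` generate everything modulo null sets), and suppose that its tail
`⋂ T^(-n) 𝒜` (`tailA`) is contained, modulo null sets, in the `σ`-algebra generated by an increasing sequence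
`ℱ 0 ⊆ ℱ 1 ⊆ …` of factors of `(X, μ, T)` which are ergodic nilsystems (`NilFactor`). Then for every bounded
measurable `f`, for `μ`-almost every `x`, the sequence `f (T ^ ⌊G n⌋ x)`, `n ≥ 1`, has a unique Furstenberg
system, and this is a product measure.

Examples: every K-automorphism and every exact endomorphism (trivial tail); every ergodic nilsystem, and
every inverse limit of ergodic nilsystems (`𝒜` everything); direct products of a K-automorphism and an
ergodic nilsystem.
-/

set_option autoImplicit false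

namespace Pool.Agent.Results.MP_823c05_an.ProNilTail

open MeasureTheory Pool.Agent.VINO

universe u v

theorem result (c : ℝ) (hc0 : 0 < c) (hc1 : c < 1 / 2) (X : Type u) (𝒜 : MeasurableSpace X)
    (ℱ : ℕ → MeasurableSpace X) [m : MeasurableSpace X] (μ : Measure X)
    [IsProbabilityMeasure μ] (T : X → X) (hT : MeasurePreserving T μ μ) (h𝒜 : 𝒜 ≤ m)
    (hA : 𝒜.comap T ≤ 𝒜) (hgen : GenA T 𝒜 μ) (hmono : Monotone ℱ)
    (hnil : ∀ i, NilFactor.{u, v} T (ℱ i) μ)
    (hP : ∀ A : Set X, MeasurableSet[tailA T 𝒜] A → ∀ ε : ENNReal, 0 < ε →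
      ∃ i, ∃ B : Set X, MeasurableSet[ℱ i] B ∧ μ (symmDiff A B) ≤ ε)
    (f : X → ℂ) (hf : Bdd f) :
    ∀ᵐ x ∂μ, HasBernoulliFS fun n => f (T^[a c n] x) :=
  relK_main hc0 hc1 ℱ hT h𝒜 hA hgen hmono hnil hP f hf

end Pool.Agent.Results.MP_823c05_an.ProNilTail
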